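import Mathlib

/-!
The function `N(b,c,k)` for increasing integer sequences with `a_{i+b} ≤ a_i + c`:
the shift identity `N(b+k, c+2k, k) = N(b,c,k) + k` for `b ≤ c < 2b`.
-/

namespace Pool.Agent.Q280.Shift

/-- admissible sequences `a_0, ..., a_n` -/
def Admissible (b c n : ℕ) (a : ℕ → ℤ) : Prop :=
  a 0 = 0 ∧ (∀ i, i < n → a i < a (i + 1)) ∧ ∀ i, i + b ≤ n → a (i + b) ≤ a i + c

/-- the sequence hits `k` -/
def Hits (k n : ℕ) (a : ℕ → ℤ) : Prop := ∃ i j, i < j ∧ j ≤ n ∧ a j - a i = k

/-- the positive integers `n` such that all admissible sequences of length `n` hit `k` -/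
def Forced (b c k : ℕ) : Set ℕ := {n | 0 < n ∧ ∀ a : ℕ → ℤ, Admissible b c n a → Hits k n a}

lemma gap {n : ℕ} {a : ℕ → ℤ} (h : ∀ i, i < n → a i < a (i + 1)) {i j : ℕ} (hij : i ≤ j)
    (hj : j ≤ n) : a i + ((j : ℤ) - i) ≤ a j := by
  induction j, hij using Nat.le_induction with
  | base => simp
  | succ j hij ih =>
    have h1 := ih (by omega)
    have h2 := h j (by omega)
    push_cast
    omega

lemma lt_of {n : ℕ} {a : ℕ → ℤ} (h : ∀ i, i < n → a i < a (i + 1)) {i j : ℕ} (hij : i < j)
    (hj : j ≤ n) : a i < a j := by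
  have := gap h hij.le hj
  have h2 : (i : ℤ) < j := by exact_mod_cast hij
  omega

lemma le_of {n : ℕ} {a : ℕ → ℤ} (h : ∀ i, i < n → a i < a (i + 1)) {i j : ℕ} (hij : i ≤ j)
    (hj : j ≤ n) : a i ≤ a j := by
  have := gap h hij hj
  have h2 : (i : ℤ) ≤ j := by exact_mod_cast hij
  omega

/-- a sequence without difference `k` has at most `k` terms in an interval of length `2k` -/
lemma kf {n k : ℕ} {a : ℕ → ℤ} (hk : 0 < k) (h : ∀ i, i < n → a i < a (i + 1))
    (hf : ¬ Hits k n a) (j : ℕ) (hj : j + k ≤ n) : a j + 2 * k ≤ a (j + k) := by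
  by_contra hcon
  push Not at hcon
  obtain ⟨s, hs, t, ht, hst, he⟩ := Finset.exists_ne_map_eq_of_card_lt_of_maps_to
    (s := Finset.range (k + 1)) (t := Finset.Ico (0 : ℤ) k)
    (f := fun t => (a (j + t) - a j) % (k : ℤ)) (by simp) (by
      intro t _
      have hk' : (0 : ℤ) < k := by exact_mod_cast hk
      simp only [Finset.coe_Ico, Set.mem_Ico]
      exact ⟨Int.emod_nonneg _ hk'.ne', Int.emod_lt_of_pos _ hk'⟩)
  have main : ∀ s t : ℕ, s < t → t ≤ k →
      (a (j + s) - a j) % (k : ℤ) = (a (j + t) - a j) % (k : ℤ) → False := by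
    intro s t hst ht he
    have h1 : (k : ℤ) ∣ (a (j + t) - a j) - (a (j + s) - a j) :=
      Int.ModEq.dvd he
    obtain ⟨z, hz⟩ := h1
    have h2 : a (j + s) < a (j + t) := lt_of h (by omega) (by omega)
    have h3 : a (j + t) ≤ a (j + k) := le_of h (by omega) (by omega)
    have h4 : a j ≤ a (j + s) := le_of h (by omega) (by omega)
    have hk' : (0 : ℤ) < k := by exact_mod_cast hk
    have hz1 : 0 < z := by
      by_contra hz0
      push Not at hz0
      nlinarith
    have hz2 : z < 2 := by
      by_contra hz0
      push Not at hz0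
      nlinarith
    have hz3 : z = 1 := by omega
    subst hz3
    apply hf
    exact ⟨j + s, j + t, by omega, by omega, by linarith⟩
  have hs' := Finset.mem_range.mp hs
  have ht' := Finset.mem_range.mp ht
  rcases Nat.lt_or_ge s t with h1 | h1
  · exact main s t h1 (by omega) he
  · exact main t s (by omega) (by omega) he.symm

/-- `b + k - 1` is forced -/
lemma forced_one {b c k : ℕ} (hb : 0 < b) (hk : 0 < k) (hc : c < 2 * b) :
    b + k - 1 ∈ Forced b c k := by
  refine ⟨by omega, ?_⟩
  intro a ha
  obtain ⟨-, hinc, hadm⟩ := ha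
  by_contra hf
  let g : ℕ → ℤ := fun j => ((b : ℤ) + k) * (a j - 2 * j) + j
  obtain ⟨j, hj, hmax⟩ := Finset.exists_max_image (Finset.range (b + k)) g
    ⟨0, Finset.mem_range.mpr (by omega)⟩
  have hj' := Finset.mem_range.mp hj
  have hbz : (0 : ℤ) < b := by exact_mod_cast hb
  have hkz : (0 : ℤ) < k := by exact_mod_cast hk
  rcases Nat.lt_or_ge j b with h | h
  · have h1 := kf hk hinc hf j (by omega)
    have h2 := hmax (j + k) (Finset.mem_range.mpr (by omega))
    simp only [g] at h2
    push_cast at h2
    nlinarith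
  · obtain ⟨i, rfl⟩ : ∃ i, j = i + b := ⟨j - b, by omega⟩
    have h1 := hadm i (by omega)
    have h2 := hmax i (Finset.mem_range.mpr (by omega))
    simp only [g] at h2
    push_cast at h2
    have hc' : (c : ℤ) < 2 * b := by exact_mod_cast hc
    nlinarith

/-- `k` is forced if `k ≥ 2b` -/
lemma forced_two {b c k : ℕ} (hb : 0 < b) (hc : c < 2 * b) (hkb : 2 * b ≤ k) :
    k ∈ Forced b c k := by
  refine ⟨by omega, ?_⟩
  intro a ha
  obtain ⟨h0, hinc, hadm⟩ := ha
  by_contra hf
  have hk : 0 < k := by omega
  have h2k := kf hk hinc hf 0 (by omega)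
  rw [zero_add, h0, zero_add] at h2k
  have hcz : (c : ℤ) < 2 * b := by exact_mod_cast hc
  have hkbz : 2 * (b : ℤ) ≤ k := by exact_mod_cast hkb
  have hex : ∃ p, (k : ℤ) ≤ a p := ⟨k, by omega⟩
  classical
  set p := Nat.find hex with hp
  have hp1 : (k : ℤ) ≤ a p := Nat.find_spec hex
  have hp2 : ∀ i, i < p → a i < k := fun i hi => not_le.mp (Nat.find_min hex hi)
  have hpk : p ≤ k := Nat.find_min' hex (by omega)
  have hp0 : 0 < p := by
    rcases Nat.eq_zero_or_pos p with h | h
    · rw [h, h0] at hp1; omega
    · exact h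
  rcases Nat.lt_or_ge k (p - 1 + b) with h | h
  · have h1 := hp2 (k - b) (by omega)
    have h2 := hadm (k - b) (by omega)
    rw [show k - b + b = k by omega] at h2
    omega
  · have hb' := hadm 0 (by omega)
    rw [zero_add, h0, zero_add] at hb'
    have hq := hadm (p - 1) h
    have hq1 := hp2 (p - 1) (by omega)
    have hS1 : ((Finset.range (b + 1)).image (fun i => a i + k)).card = b + 1 := by
      rw [Finset.card_image_of_injOn, Finset.card_range]
      intro i hi j hj hij
      have hi' := Finset.mem_range.mp (Finset.mem_coe.mp hi)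
      have hj' := Finset.mem_range.mp (Finset.mem_coe.mp hj)
      simp only [add_left_inj] at hij
      rcases Nat.lt_trichotomy i j with h1 | h1 | h1
      · exact absurd hij (lt_of hinc h1 (by omega)).ne
      · exact h1
      · exact absurd hij.symm (lt_of hinc h1 (by omega)).ne
    have hS2 : ((Finset.range b).image (fun i => a (p + i))).card = b := by
      rw [Finset.card_image_of_injOn, Finset.card_range]
      intro i hi j hj hij
      have hi' := Finset.mem_range.mp (Finset.mem_coe.mp hi)
      have hj' := Finset.mem_range.mp (Finset.mem_coe.mp hj)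
      simp only at hij
      rcases Nat.lt_trichotomy i j with h1 | h1 | h1
      · exact absurd hij (lt_of hinc (by omega : p + i < p + j) (by omega)).ne
      · exact h1
      · exact absurd hij.symm (lt_of hinc (by omega : p + j < p + i) (by omega)).ne
    have hdisj : Disjoint ((Finset.range (b + 1)).image (fun i => a i + k))
        ((Finset.range b).image (fun i => a (p + i))) := by
      rw [Finset.disjoint_left]
      intro x hx hy
      obtain ⟨i, hi, rfl⟩ := Finset.mem_image.mp hx
      obtain ⟨j, hj, hij⟩ := Finset.mem_image.mp hy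
      have hi' := Finset.mem_range.mp hi
      have hj' := Finset.mem_range.mp hj
      apply hf
      refine ⟨i, p + j, ?_, by omega, by linarith⟩
      by_contra hcon
      push Not at hcon
      have := le_of hinc hcon (by omega)
      omega
    have hsub : ((Finset.range (b + 1)).image (fun i => a i + k)) ∪
        ((Finset.range b).image (fun i => a (p + i))) ⊆ Finset.Icc (k : ℤ) (k + c) := by
      intro x hx
      rw [Finset.mem_union] at hx
      rw [Finset.mem_Icc]
      rcases hx with hx | hx
      · obtain ⟨i, hi, rfl⟩ := Finset.mem_image.mp hx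
        have hi' := Finset.mem_range.mp hi
        have e1 := le_of hinc (by omega : 0 ≤ i) (by omega)
        have e2 := le_of hinc (by omega : i ≤ b) (by omega)
        rw [h0] at e1
        constructor <;> omega
      · obtain ⟨i, hi, rfl⟩ := Finset.mem_image.mp hx
        have hi' := Finset.mem_range.mp hi
        have e1 := le_of hinc (by omega : p ≤ p + i) (by omega)
        have e2 := le_of hinc (by omega : p + i ≤ p - 1 + b) (by omega)
        constructor <;> omega
    have hcard := Finset.card_le_card hsub
    rw [Finset.card_union_of_disjoint hdisj, hS1, hS2, Int.card_Icc] at hcard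
    omega

/-- short sequences need not hit `k` -/
lemma not_forced_small {b c k n : ℕ} (hk : 0 < k) (hn : n < b) : n ∉ Forced b c k := by
  rintro ⟨-, h⟩
  obtain ⟨i, j, hij, hj, he⟩ := h (fun i => 2 * k * i) ⟨by simp, by
    intro i _
    push_cast
    have hkz : (0 : ℤ) < k := by exact_mod_cast hk
    nlinarith, by
    intro i hi
    omega⟩
  have hkz : (0 : ℤ) < k := by exact_mod_cast hk
  have h1 : (k : ℤ) * (2 * ((j : ℤ) - i)) = k * 1 := by linarith
  have h2 := mul_left_cancel₀ hkz.ne' h1
  omega

/-- the upper bound -/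
lemma upper {b c k n : ℕ} (hk : 0 < k) (hn : n ∈ Forced b c k) :
    n + k ∈ Forced (b + k) (c + 2 * k) k := by
  obtain ⟨hn0, h⟩ := hn
  refine ⟨by omega, ?_⟩
  intro a ha
  obtain ⟨h0, hinc, hadm⟩ := ha
  by_contra hf
  have h1 : Admissible b c n a := by
    refine ⟨h0, fun i hi => hinc i (by omega), ?_⟩
    intro i hi
    have e1 := hadm i (by omega)
    have e2 := kf hk hinc hf (i + b) (by omega)
    rw [← add_assoc] at e1
    push_cast at e1
    linarith
  obtain ⟨i, j, hij, hj, he⟩ := h a h1
  exact hf ⟨i, j, hij, by omega, he⟩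

/-- the case `k ≥ 2b` of the lower bound -/
lemma lower_large {b c k n : ℕ} (hk : 0 < k) (hbc : b ≤ c) (hn : n < k) :
    n + k ∉ Forced (b + k) (c + 2 * k) k := by
  rintro ⟨-, h⟩
  have hkz : (0 : ℤ) < k := by exact_mod_cast hk
  have hbcz : (b : ℤ) ≤ c := by exact_mod_cast hbc
  obtain ⟨i, j, hij, hj, he⟩ := h (fun i => if i < k then (i : ℤ) else i + k) ⟨by simp [hk], by
    intro i _
    beta_reduce
    split_ifs <;> push_cast <;> omega, by
    intro i hi
    beta_reduce
    rw [if_pos (show i < k by omega), if_neg (show ¬ i + (b + k) < k by omega)]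
    push_cast
    omega⟩
  beta_reduce at he
  split_ifs at he with h1 h2
  · omega
  · omega
  · omega
  · omega

/-- the insertion step of the lower bound -/
lemma lower_small {b c k n : ℕ} (hk : 0 < k) (hc : c < 2 * b) (hkb : k < 2 * b)
    (hbn : b ≤ n) (hn : n ∉ Forced b c k) : n + k ∉ Forced (b + k) (c + 2 * k) k := by
  have hb : 0 < b := by omega
  have hn0 : 0 < n := by omega
  have hkz : (0 : ℤ) < k := by exact_mod_cast hk
  have hcz : (c : ℤ) < 2 * b := by exact_mod_cast hc
  -- the sequence without difference `k`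
  have hex : ∃ a, Admissible b c n a ∧ ¬ Hits k n a := by
    by_contra hcon
    push Not at hcon
    exact hn ⟨hn0, hcon⟩
  obtain ⟨a, ⟨h0, hinc, hadm⟩, hf⟩ := hex
  -- `n ≤ b + k - 2`
  have hnb : n + 2 ≤ b + k := by
    by_contra hcon
    push Not at hcon
    apply hn
    refine ⟨hn0, ?_⟩
    intro a' ha'
    obtain ⟨h0', hinc', hadm'⟩ := ha'
    obtain ⟨i, j, hij, hj, he⟩ := (forced_one hb hk hc).2 a'
      ⟨h0', fun i hi => hinc' i (by omega), fun i hi => hadm' i (by omega)⟩
    exact ⟨i, j, hij, by omega, he⟩
  -- the cut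
  have hext : ∃ t, b ≤ t ∧ (n < t ∨ a b + k ≤ a t) := ⟨n + 1, by omega, Or.inl (by omega)⟩
  classical
  set t := Nat.find hext with ht
  obtain ⟨htb, ht1⟩ : b ≤ t ∧ (n < t ∨ a b + k ≤ a t) := Nat.find_spec hext
  have htn : t ≤ n + 1 := Nat.find_min' hext ⟨by omega, Or.inl (by omega)⟩
  have ht2 : ∀ j, b ≤ j → j < t → j ≤ n ∧ a j < a b + k := by
    intro j hj1 hj2
    have := Nat.find_min hext hj2
    push Not at this
    exact this hj1
  have htb' : b < t := by
    rcases Nat.lt_or_ge b t with h | h
    · exact h
    · have : t = b := by omega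
      rw [this] at ht1
      omega
  have htge : ∀ j, t ≤ j → j ≤ n → a b + k ≤ a j := by
    intro j hj1 hj2
    rcases ht1 with h | h
    · omega
    · exact h.trans (le_of hinc hj1 hj2)
  -- the set `Q` and the complement
  let Q : Finset ℤ := (Finset.Ico b t).image a
  have hQcard : Q.card = t - b := by
    rw [Finset.card_image_of_injOn, Nat.card_Ico]
    intro i hi j hj hij
    have hi' := Finset.mem_Ico.mp (Finset.mem_coe.mp hi)
    have hj' := Finset.mem_Ico.mp (Finset.mem_coe.mp hj)
    rcases Nat.lt_trichotomy i j with h1 | h1 | h1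
    · exact absurd hij (lt_of hinc h1 (by omega)).ne
    · exact h1
    · exact absurd hij.symm (lt_of hinc h1 (by omega)).ne
  have hQsub : Q ⊆ Finset.Ico (a b) (a b + k) := by
    intro x hx
    obtain ⟨j, hj, rfl⟩ := Finset.mem_image.mp hx
    have hj' := Finset.mem_Ico.mp hj
    rw [Finset.mem_Ico]
    exact ⟨le_of hinc hj'.1 (by omega), (ht2 j hj'.1 hj'.2).2⟩
  let Y : Finset ℤ := (Finset.Ico (a b) (a b + k)) \ Q
  have hYcard : Y.card = k - (t - b) := by
    rw [Finset.card_sdiff_of_subset hQsub, hQcard, Int.card_Ico]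
    congr 1
    omega
  let e : Fin (k - (t - b)) ↪o ℤ := Y.orderEmbOfFin hYcard
  have he1 : ∀ i, e i ∈ Y := fun i => Finset.orderEmbOfFin_mem Y hYcard i
  have he2 : ∀ i, a b ≤ e i ∧ e i < a b + k ∧ e i ∉ Q := by
    intro i
    have h1 := he1 i
    simp only [Y, Finset.mem_sdiff, Finset.mem_Ico] at h1
    exact ⟨h1.1.1, h1.1.2, h1.2⟩
  -- the new sequence
  let a' : ℕ → ℤ := fun i => if i < t then a i else
    if h : i - t < k - (t - b) then e ⟨i - t, h⟩ + k else a (i - k) + 2 * k
  have ha1 : ∀ i, i < t → a' i = a i := fun i hi => by simp only [a', if_pos hi]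
  have ha2 : ∀ i, t ≤ i → ∀ h : i - t < k - (t - b), a' i = e ⟨i - t, h⟩ + k := by
    intro i hi h
    simp only [a', if_neg (not_lt.mpr hi), dif_pos h]
  have ha3 : ∀ i, b + k ≤ i → a' i = a (i - k) + 2 * k := by
    intro i hi
    have h1 : ¬ i < t := by omega
    have h2 : ¬ (i - t < k - (t - b)) := by omega
    simp only [a', if_neg h1, dif_neg h2]
  rintro ⟨-, hforce⟩
  have hadm' : Admissible (b + k) (c + 2 * k) (n + k) a' := by
    refine ⟨?_, ?_, ?_⟩
    · rw [ha1 0 (by omega), h0]
    · intro i hi
      rcases Nat.lt_or_ge (i + 1) t with h | h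
      · rw [ha1 i (by omega), ha1 (i + 1) h]
        exact hinc i (by omega)
      · rcases Nat.lt_or_ge i t with h1 | h1
        · -- i = t - 1
          have hlt := (ht2 i (by omega) h1).2
          rw [ha1 i h1, ha2 (i + 1) h (by omega)]
          have := (he2 ⟨i + 1 - t, by omega⟩).1
          omega
        · rcases Nat.lt_or_ge (i + 1) (b + k) with h2 | h2
          · rw [ha2 i h1 (by omega), ha2 (i + 1) h (by omega)]
            have : e ⟨i - t, by omega⟩ < e ⟨i + 1 - t, by omega⟩ := by
              apply e.strictMono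
              show i - t < i + 1 - t
              omega
            omega
          · rw [ha3 (i + 1) h2]
            rcases Nat.lt_or_ge i (b + k) with h3 | h3
            · rw [ha2 i h1 (by omega)]
              have h4 := (he2 ⟨i - t, by omega⟩).2.1
              have h5 : i + 1 - k = b := by omega
              rw [h5]
              omega
            · rw [ha3 i h3]
              have h4 := hinc (i - k) (by omega)
              rw [show i - k + 1 = i + 1 - k by omega] at h4
              omega
    · intro i hi
      rw [ha3 (i + (b + k)) (by omega), show i + (b + k) - k = i + b by omega]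
      have hit : i < t := by
        rcases Nat.lt_or_ge i b with h | h
        · omega
        · by_contra hcon
          push Not at hcon
          have h1 := htge i hcon (by omega)
          have h2 := hadm (i - b) (by omega)
          rw [show i - b + b = i by omega] at h2
          have h3 := gap hinc (by omega : i - b ≤ b) (by omega)
          have h4 : ((i - b : ℕ) : ℤ) = (i : ℤ) - b := by omega
          rw [h4] at h3
          omega
      rw [ha1 i hit]
      have := hadm i (by omega)
      push_cast
      omega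
  obtain ⟨i, j, hij, hj, hd⟩ := hforce a' hadm'
  -- the new sequence has no difference `k`
  rcases Nat.lt_or_ge j t with hjt | hjt
  · rw [ha1 j hjt, ha1 i (by omega)] at hd
    exact hf ⟨i, j, hij, by omega, hd⟩
  · rcases Nat.lt_or_ge j (b + k) with hjk | hjk
    · rw [ha2 j hjt (by omega)] at hd
      have hj2 := he2 ⟨j - t, by omega⟩
      rcases Nat.lt_or_ge i t with hit | hit
      · rw [ha1 i hit] at hd
        rcases Nat.lt_or_ge i b with hib | hib
        · have := lt_of hinc hib hbn
          omega
        · apply hj2.2.2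
          rw [Finset.mem_image]
          exact ⟨i, Finset.mem_Ico.mpr ⟨hib, hit⟩, by omega⟩
      · rw [ha2 i hit (by omega)] at hd
        have hi2 := he2 ⟨i - t, by omega⟩
        omega
    · rw [ha3 j hjk] at hd
      have hjb := le_of hinc (by omega : b ≤ j - k) (by omega)
      rcases Nat.lt_or_ge i t with hit | hit
      · rw [ha1 i hit] at hd
        have : a i < a b + k := by
          rcases Nat.lt_or_ge i b with hib | hib
          · have := lt_of hinc hib hbn
            omega
          · exact (ht2 i hib hit).2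
        omega
      · rcases Nat.lt_or_ge i (b + k) with hik | hik
        · rw [ha2 i hit (by omega)] at hd
          have hi2 := he2 ⟨i - t, by omega⟩
          apply hi2.2.2
          rw [Finset.mem_image]
          refine ⟨j - k, Finset.mem_Ico.mpr ⟨by omega, ?_⟩, by omega⟩
          by_contra hcon
          push Not at hcon
          have := htge (j - k) hcon (by omega)
          omega
        · rw [ha3 i hik] at hd
          exact hf ⟨i - k, j - k, by omega, by omega, by omega⟩

/-- the lower bound -/
lemma lower {b c k n : ℕ} (hb : 0 < b) (hk : 0 < k) (hbc : b ≤ c) (hc : c < 2 * b) (hn0 : 0 < n)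
    (hn : n ∉ Forced b c k) : n + k ∉ Forced (b + k) (c + 2 * k) k := by
  rcases Nat.lt_or_ge n b with h | h
  · exact not_forced_small hk (by omega)
  · rcases Nat.lt_or_ge k (2 * b) with h1 | h1
    · exact lower_small hk hc h1 h hn
    · apply lower_large hk hbc
      by_contra hcon
      push Not at hcon
      apply hn
      refine ⟨hn0, ?_⟩
      intro a' ha'
      obtain ⟨h0', hinc', hadm'⟩ := ha'
      obtain ⟨i, j, hij, hj, he⟩ := (forced_two hb hc h1).2 a'
        ⟨h0', fun i hi => hinc' i (by omega), fun i hi => hadm' i (by omega)⟩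
      exact ⟨i, j, hij, by omega, he⟩

/-- the function `N(b,c,k)`, with value `⊤` if no length is forced -/
noncomputable def N (b c k : ℕ) : ℕ∞ := sInf ((fun n : ℕ => (n : ℕ∞)) '' Forced b c k)

lemma N_eq {b c k n : ℕ} (h : IsLeast (Forced b c k) n) : N b c k = n := by
  apply le_antisymm
  · exact sInf_le ⟨n, h.1, rfl⟩
  · apply le_sInf
    rintro _ ⟨m, hm, rfl⟩
    show (n : ℕ∞) ≤ (m : ℕ∞)
    exact_mod_cast h.2 hm

theorem main {b c k : ℕ} (hb : 0 < b) (hk : 0 < k) (hbc : b ≤ c) (hc : c < 2 * b) :
    N (b + k) (c + 2 * k) k = N b c k + k ∧ N b c k ≠ ⊤ := by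
  classical
  have hex : ∃ n, n ∈ Forced b c k := ⟨_, forced_one hb hk hc⟩
  have hleast : IsLeast (Forced b c k) (Nat.find hex) :=
    ⟨Nat.find_spec hex, fun m hm => Nat.find_min' hex hm⟩
  have hleast' : IsLeast (Forced (b + k) (c + 2 * k) k) (Nat.find hex + k) := by
    refine ⟨upper hk hleast.1, ?_⟩
    intro m hm
    by_contra hcon
    push Not at hcon
    rcases Nat.lt_or_ge k m with h | h
    · obtain ⟨n, rfl⟩ : ∃ n, m = n + k := ⟨m - k, by omega⟩
      refine lower hb hk hbc hc (by omega) (Nat.find_min hex (by omega)) hm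
    · exact not_forced_small hk (by omega) hm
  rw [N_eq hleast, N_eq hleast']
  exact ⟨by push_cast; rfl, ENat.natCast_ne_top _⟩

end Pool.Agent.Q280.Shift
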